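import Pool.Agent.PDT.Stmts2
import Pool.Agent.Helper53_Chan.Cond

/-!
# Row TIM, part 1: numbers and lists of numbers as words, generated in polynomial time
-/

set_option autoImplicit false

namespace Pool.Agent.PDT.H15

open Pool.Agent.Helper53_CookLevin Pool.Agent.Helper53_Chan Pool.Agent.PDM
open Pool.Agent.Common_CookLevin (encodeCNF CNF CNFLetter)

/-- the alphabet -/
abbrev CL : Type := CNFLetter

instance : Inhabited CNFLetter := ⟨CNFLetter.tick⟩

variable {m : ℕ}

/-- numbers in unary -/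
def NP (m : ℕ) (e : (Fin m → List CL) → ℕ) : Prop :=
  PGen m (fun ρ => List.replicate (e ρ) CNFLetter.tick)

theorem NP.congr {e e' : (Fin m → List CL) → ℕ} (h : NP m e) (he : ∀ ρ, e ρ = e' ρ) : NP m e' :=
  PGen.congr h fun ρ => by rw [he ρ]

theorem NP.const (c : ℕ) : NP m (fun _ => c) := PGen.const (List.replicate c CNFLetter.tick)

theorem NP.add {e e' : (Fin m → List CL) → ℕ} (h : NP m e) (h' : NP m e') :
    NP m (fun ρ => e ρ + e' ρ) :=
  PGen.congr (PGen.append h h') fun ρ => by rw [List.replicate_add]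

theorem NP.up {e : (Fin m → List CL) → ℕ} (h : NP m e) :
    NP (m + 1) (fun ρ => e (ρ ∘ Fin.succ)) := PGen.rename Fin.succ h

theorem pg_up {F : (Fin m → List CL) → List CL} (h : PGen m F) :
    PGen (m + 1) (fun ρ => F (ρ ∘ Fin.succ)) := PGen.rename Fin.succ h

theorem pg_loop {e : (Fin m → List CL) → ℕ} (he : NP m e)
    {K : ℕ → (Fin m → List CL) → List CL}
    (h : PGen (m + 1) (fun ρ => K (ρ 0).length (ρ ∘ Fin.succ))) :
    PGen m (fun ρ => (List.range (e ρ)).flatMap (fun k => K k ρ)) :=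
  PGen.congr (PGen.loopRange he (K := fun q ρ => K q.length ρ) h) (fun ρ => by
    simp only [List.length_replicate])

theorem NP.mul {e e' : (Fin m → List CL) → ℕ} (h : NP m e) (h' : NP m e') :
    NP m (fun ρ => e ρ * e' ρ) :=
  PGen.congr (pg_loop h (K := fun _ ρ => List.replicate (e' ρ) CNFLetter.tick) h'.up)
    fun ρ => flatMap_replicate _ _ _

theorem NP.pow {e : (Fin m → List CL) → ℕ} (h : NP m e) : ∀ n : ℕ, NP m (fun ρ => e ρ ^ n)
  | 0 => (NP.const 1).congr fun ρ => (pow_zero _).symm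
  | n + 1 => (NP.mul (NP.pow h n) h).congr fun ρ => (pow_succ _ _).symm

theorem NP.sub {e e' : (Fin m → List CL) → ℕ} (h : NP m e) (h' : NP m e') :
    NP m (fun ρ => e ρ - e' ρ) :=
  PGen.congr (PGen.dropF h h') fun ρ => by simp

theorem NP.len {F : (Fin m → List CL) → List CL} (h : PGen m F) :
    NP m (fun ρ => (F ρ).length) :=
  PGen.congr (PGen.cnt (fun _ => true) CNFLetter.tick h) fun ρ => by
    unfold Helper53_Chan.cnt
    rw [List.filter_true]

theorem NP.var0 : NP (m + 1) (fun ρ => (ρ 0).length) := NP.len (PGen.var 0)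

theorem flatMap_rep (g : ℕ → ℕ) : ∀ l : List ℕ,
    l.flatMap (fun k => List.replicate (g k) CNFLetter.tick) =
      List.replicate ((l.map g).sum) CNFLetter.tick
  | [] => rfl
  | a :: l => by
    rw [List.flatMap_cons, flatMap_rep g l, List.map_cons, List.sum_cons, List.replicate_add]

theorem NP.sum {e : (Fin m → List CL) → ℕ} (he : NP m e) {g : ℕ → (Fin m → List CL) → ℕ}
    (h : NP (m + 1) (fun ρ => g (ρ 0).length (ρ ∘ Fin.succ))) :
    NP m (fun ρ => ((List.range (e ρ)).map (fun k => g k ρ)).sum) :=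
  PGen.congr (pg_loop he (K := fun k ρ => List.replicate (g k ρ) CNFLetter.tick) h)
    fun ρ => flatMap_rep (fun k => g k ρ) _

theorem pg_le {a b : (Fin m → List CL) → ℕ} {F G : (Fin m → List CL) → List CL} (ha : NP m a)
    (hb : NP m b) (hF : PGen m F) (hG : PGen m G) :
    PGen m (fun ρ => if a ρ ≤ b ρ then F ρ else G ρ) :=
  Test.ite (Test.congr (Test.lenLe ha hb) fun ρ => by simp) hF hG

theorem pg_nil {T F G : (Fin m → List CL) → List CL} (hT : PGen m T) (hF : PGen m F)
    (hG : PGen m G) : PGen m (fun ρ => if T ρ = [] then F ρ else G ρ) :=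
  Test.ite (Test.empty hT) hF hG

theorem NP.le {a b e e' : (Fin m → List CL) → ℕ} (ha : NP m a) (hb : NP m b) (he : NP m e)
    (he' : NP m e') : NP m (fun ρ => if a ρ ≤ b ρ then e ρ else e' ρ) :=
  PGen.congr (pg_le ha hb he he') fun ρ => by
    by_cases h : a ρ ≤ b ρ
    · simp only [if_pos h]
    · simp only [if_neg h]

/-! ### The numbers of the sequence -/

theorem np_bs {t : (Fin m → List CL) → ℕ} (ht : NP m t) : NP m (fun ρ => bs (t ρ)) :=
  NP.mul (NP.const 4) (NP.pow (NP.add ht (NP.const 1)) 2)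

theorem np_off {t : (Fin m → List CL) → ℕ} (ht : NP m t) : NP m (fun ρ => off (t ρ)) :=
  NP.mul (NP.mul (NP.const 8) (NP.add ht (NP.const 1))) (NP.pow (np_bs ht) 6)

theorem np_code {t i : (Fin m → List CL) → ℕ} (ht : NP m t) (k : ℕ) (hi : NP m i) :
    NP m (fun ρ => codeN (t ρ) k (i ρ)) :=
  NP.add (NP.mul (NP.pow (np_bs ht) (2 * k)) (NP.add hi (NP.const 1)))
    (NP.mul (NP.pow (np_bs ht) (2 * k + 1)) (NP.pow (NP.add hi (NP.const 1)) 2))

theorem np_vA {t i : (Fin m → List CL) → ℕ} (ht : NP m t) (k : ℕ) (hi : NP m i) :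
    NP m (fun ρ => vAN (t ρ) k (i ρ)) :=
  NP.mul (NP.const 8) (NP.add (np_off ht) (np_code ht k hi))

theorem np_vC {t a b c : (Fin m → List CL) → ℕ} (ht : NP m t) (ha : NP m a) (hb : NP m b)
    (hc : NP m c) : NP m (fun ρ => vCN (t ρ) (a ρ, b ρ, c ρ)) :=
  NP.add (NP.add (np_vA ht 0 ha) (np_vA ht 1 hb)) (np_vA ht 2 hc)

theorem np_sA {t : (Fin m → List CL) → ℕ} (ht : NP m t) : NP m (fun ρ => sAN (t ρ)) :=
  NP.sum ht (g := fun i ρ => vAN (t ρ) 0 i + vAN (t ρ) 1 i + vAN (t ρ) 2 i)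
    (NP.add (NP.add (np_vA ht.up 0 NP.var0) (np_vA ht.up 1 NP.var0)) (np_vA ht.up 2 NP.var0))

theorem np_vD {t : (Fin m → List CL) → ℕ} (ht : NP m t) : NP m (fun ρ => vDN (t ρ)) :=
  NP.add (NP.mul (NP.const 2) (np_sA ht)) (NP.const 9)

/-! ### Lists of numbers -/

/-- a number and the end mark -/
def nw (v : ℕ) : List CL := List.replicate v CNFLetter.tick ++ [CNFLetter.clause]

/-- a list of numbers -/
def wordL (l : List ℕ) : List CL := l.flatMap nw

theorem wordL_append (l l' : List ℕ) : wordL (l ++ l') = wordL l ++ wordL l' := by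
  unfold wordL
  rw [List.flatMap_append]

theorem wordL_replicate (n v : ℕ) :
    wordL (List.replicate n v) = (List.range n).flatMap fun _ => nw v := by
  unfold wordL
  rw [show List.replicate n v = (List.range n).map fun _ => v by simp, List.flatMap_map]

theorem pg_nw {e : (Fin m → List CL) → ℕ} (h : NP m e) : PGen m (fun ρ => nw (e ρ)) :=
  PGen.append h (PGen.const [CNFLetter.clause])

theorem pg_rep {n v : (Fin m → List CL) → ℕ} (hn : NP m n) (hv : NP m v) :
    PGen m (fun ρ => (List.range (n ρ)).flatMap fun _ => nw (v ρ)) :=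
  pg_loop hn (K := fun _ ρ => nw (v ρ)) (pg_nw hv.up)

end Pool.Agent.PDT.H15
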